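import Pool.Agent.H.MP_7df7b8_gt.Inv

namespace Pool.Agent.H.MP_7df7b8_gt

open Pool.Agent.H.MP_dfcdcf_gt

def U : Gauss 2 := mk [(0, true), (1, false), (0, false), (2, false)] [(1, true), (2, true)] [2]
  (by decide)

def V : Gauss 2 := mk [(3, true), (4, false), (3, false), (5, false)] [(4, true), (5, true)] [3, 5]
  (by decide)

lemma I_U : I U = 1 := by decide

def uv0 : Gauss 2 := mk [(0, true), (1, false), (0, false), (2, false), (3, true), (4, false), (3, false), (5, false)]
  [(1, true), (2, true), (4, true), (5, true)] [2, 3, 5] (by decide)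

def uv1 : Gauss 2 := mk [(0, false), (1, false), (0, true), (2, false), (3, true), (4, false), (3, false), (5, false)]
  [(1, true), (2, true), (4, true), (5, true)] [0, 2, 3, 5] (by decide)

def uv2 : Gauss 2 := mk [(0, false), (7, false), (6, false), (1, false), (0, true), (2, false), (3, true), (4, false), (3, false), (5, false)]
  [(6, true), (7, true), (1, true), (2, true), (4, true), (5, true)] [0, 2, 3, 5, 7] (by decide)

def uv3 : Gauss 2 := mk [(0, false), (7, false), (6, false), (1, false), (0, true), (2, false), (3, true), (4, false), (3, false), (5, false)]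
  [(6, true), (1, true), (7, true), (2, true), (4, true), (5, true)] [0, 2, 3, 5, 7] (by decide)

def uv4 : Gauss 2 := mk [(7, false), (0, false), (6, false), (0, true), (1, false), (2, false), (3, true), (4, false), (3, false), (5, false)]
  [(6, true), (7, true), (1, true), (2, true), (4, true), (5, true)] [0, 2, 3, 5, 7] (by decide)

def uv5 : Gauss 2 := mk [(7, false), (0, false), (6, false), (0, true), (3, true), (4, false), (3, false), (5, false)]
  [(6, true), (7, true), (4, true), (5, true)] [0, 3, 5, 7] (by decide)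

def uv6 : Gauss 2 := mk [(7, false), (0, false), (6, false), (3, true), (0, true), (4, false), (3, false), (5, false)]
  [(6, true), (7, true), (4, true), (5, true)] [0, 3, 5, 7] (by decide)

def uv7 : Gauss 2 := mk [(0, false), (7, false), (6, false), (3, true), (4, false), (0, true), (3, false), (5, false)]
  [(6, true), (4, true), (7, true), (5, true)] [0, 3, 5, 7] (by decide)

def uv8 : Gauss 2 := mk [(0, false), (7, false), (6, false), (3, true), (4, false), (0, true), (3, false), (5, false)]
  [(4, true), (6, true), (7, true), (5, true)] [0, 3, 5, 7] (by decide)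

def uv9 : Gauss 2 := mk [(0, false), (3, true), (4, false), (0, true), (3, false), (5, false)]
  [(4, true), (5, true)] [0, 3, 5] (by decide)

def uv10 : Gauss 2 := mk [(0, true), (3, true), (4, false), (0, false), (3, false), (5, false)]
  [(4, true), (5, true)] [3, 5] (by decide)

def uv11 : Gauss 2 := mk [(4, false), (5, false)]
  [(4, true), (5, true)] [5] (by decide)

def uv12 : Gauss 2 := mk []
  [] [] (by decide)

lemma suv0 : Relation.EqvGen (fun D E => WMove D E ∨ SelfChange D E) uv0 uv1 :=
  .rel _ _ (Or.inr ⟨0, 0, by decide, by decide, by decide, by decide, by decide⟩)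

lemma suv1 : Relation.EqvGen (fun D E => WMove D E ∨ SelfChange D E) uv1 uv2 :=
  .symm _ _ (.rel _ _ (Or.inl (Or.inl (Or.inr (Or.inr (Or.inl ⟨6, 7, by decide,
    Or.inl ⟨1, [], [(1, true), (2, true), (4, true), (5, true)], rfl⟩,
    Or.inr ⟨0, [(0, false)], [(1, false), (0, true), (2, false), (3, true), (4, false), (3, false), (5, false)], rfl⟩,
    by decide, by unfold SameSign; decide⟩))))))

lemma suv2 : Relation.EqvGen (fun D E => WMove D E ∨ SelfChange D E) uv2 uv3 :=
  .rel _ _ (Or.inl (Or.inr ⟨1, [(6, true)], [(2, true), (4, true), (5, true)], 7, 1, rfl, rfl,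
    by decide, by unfold SameSign; decide⟩))

lemma suv3 : Relation.EqvGen (fun D E => WMove D E ∨ SelfChange D E) uv3 uv4 :=
  .rel _ _ (Or.inl (Or.inl (Or.inr (Or.inr (Or.inr ⟨1, 7, 0, 1, 1, -1, by decide, by decide, by decide,
    Or.inl ⟨rfl, ⟨1, [(6, true)], [(2, true), (4, true), (5, true)], rfl⟩⟩,
    Or.inl ⟨rfl, ⟨0, [(0, false), (7, false), (6, false)], [(2, false), (3, true), (4, false), (3, false), (5, false)], rfl⟩⟩,
    Or.inr ⟨rfl, ⟨0, [], [(6, false), (1, false), (0, true), (2, false), (3, true), (4, false), (3, false), (5, false)], rfl⟩⟩,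
    by decide, by decide, by decide, by unfold SameSign; decide⟩)))))

lemma suv4 : Relation.EqvGen (fun D E => WMove D E ∨ SelfChange D E) uv4 uv5 :=
  .rel _ _ (Or.inl (Or.inl (Or.inr (Or.inr (Or.inl ⟨1, 2, by decide,
    Or.inl ⟨1, [(6, true), (7, true)], [(4, true), (5, true)], rfl⟩,
    Or.inl ⟨0, [(7, false), (0, false), (6, false), (0, true)], [(3, true), (4, false), (3, false), (5, false)], rfl⟩,
    by decide, by unfold SameSign; decide⟩)))))

lemma suv5 : Relation.EqvGen (fun D E => WMove D E ∨ SelfChange D E) uv5 uv6 :=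
  .rel _ _ (Or.inl (Or.inr ⟨0, [(7, false), (0, false), (6, false)], [(4, false), (3, false), (5, false)], 0, 3, rfl, rfl,
    by decide, by unfold SameSign; decide⟩))

lemma suv6 : Relation.EqvGen (fun D E => WMove D E ∨ SelfChange D E) uv6 uv7 :=
  .rel _ _ (Or.inl (Or.inl (Or.inr (Or.inr (Or.inr ⟨4, 7, 0, -1, -1, 1, by decide, by decide, by decide,
    Or.inr ⟨rfl, ⟨1, [(6, true)], [(5, true)], rfl⟩⟩,
    Or.inr ⟨rfl, ⟨0, [(7, false), (0, false), (6, false), (3, true)], [(3, false), (5, false)], rfl⟩⟩,
    Or.inl ⟨rfl, ⟨0, [], [(6, false), (3, true), (0, true), (4, false), (3, false), (5, false)], rfl⟩⟩,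
    by decide, by decide, by decide, by unfold SameSign; decide⟩)))))

lemma suv7 : Relation.EqvGen (fun D E => WMove D E ∨ SelfChange D E) uv7 uv8 :=
  .rel _ _ (Or.inl (Or.inr ⟨1, [], [(7, true), (5, true)], 6, 4, rfl, rfl,
    by decide, by unfold SameSign; decide⟩))

lemma suv8 : Relation.EqvGen (fun D E => WMove D E ∨ SelfChange D E) uv8 uv9 :=
  .rel _ _ (Or.inl (Or.inl (Or.inr (Or.inr (Or.inl ⟨6, 7, by decide,
    Or.inl ⟨1, [(4, true)], [(5, true)], rfl⟩,
    Or.inr ⟨0, [(0, false)], [(3, true), (4, false), (0, true), (3, false), (5, false)], rfl⟩,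
    by decide, by unfold SameSign; decide⟩)))))

lemma suv9 : Relation.EqvGen (fun D E => WMove D E ∨ SelfChange D E) uv9 uv10 :=
  .rel _ _ (Or.inr ⟨0, 0, by decide, by decide, by decide, by decide, by decide⟩)

lemma suv10 : Relation.EqvGen (fun D E => WMove D E ∨ SelfChange D E) uv10 uv11 :=
  .rel _ _ (Or.inl (Or.inl (Or.inr (Or.inr (Or.inl ⟨0, 3, by decide,
    Or.inl ⟨0, [], [(4, false), (0, false), (3, false), (5, false)], rfl⟩,
    Or.inl ⟨0, [(0, true), (3, true), (4, false)], [(5, false)], rfl⟩,
    by decide, by unfold SameSign; decide⟩)))))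

lemma suv11 : Relation.EqvGen (fun D E => WMove D E ∨ SelfChange D E) uv11 uv12 :=
  .rel _ _ (Or.inl (Or.inl (Or.inr (Or.inr (Or.inl ⟨4, 5, by decide,
    Or.inl ⟨1, [], [], rfl⟩,
    Or.inl ⟨0, [], [], rfl⟩,
    by decide, by unfold SameSign; decide⟩)))))

lemma chainuv : Relation.EqvGen (fun D E => WMove D E ∨ SelfChange D E) uv0 uv12 :=
  .trans _ _ _ suv0 <|
  .trans _ _ _ suv1 <|
  .trans _ _ _ suv2 <|
  .trans _ _ _ suv3 <|
  .trans _ _ _ suv4 <|
  .trans _ _ _ suv5 <|
  .trans _ _ _ suv6 <|
  .trans _ _ _ suv7 <|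
  .trans _ _ _ suv8 <|
  .trans _ _ _ suv9 <|
  .trans _ _ _ suv10 <|
  suv11

def vu0 : Gauss 2 := mk [(3, true), (4, false), (3, false), (5, false), (0, true), (1, false), (0, false), (2, false)]
  [(4, true), (5, true), (1, true), (2, true)] [2, 3, 5] (by decide)

def vu1 : Gauss 2 := mk [(3, false), (4, false), (3, true), (5, false), (0, true), (1, false), (0, false), (2, false)]
  [(4, true), (5, true), (1, true), (2, true)] [2, 5] (by decide)

def vu2 : Gauss 2 := mk [(3, false), (7, false), (6, false), (4, false), (3, true), (5, false), (0, true), (1, false), (0, false), (2, false)]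
  [(6, true), (7, true), (4, true), (5, true), (1, true), (2, true)] [2, 5, 7] (by decide)

def vu3 : Gauss 2 := mk [(7, false), (3, false), (6, false), (3, true), (4, false), (5, false), (0, true), (1, false), (0, false), (2, false)]
  [(6, true), (4, true), (7, true), (5, true), (1, true), (2, true)] [2, 5, 7] (by decide)

def vu4 : Gauss 2 := mk [(7, false), (3, false), (6, false), (3, true), (4, false), (5, false), (0, true), (1, false), (0, false), (2, false)]
  [(6, true), (7, true), (4, true), (5, true), (1, true), (2, true)] [2, 5, 7] (by decide)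

def vu5 : Gauss 2 := mk [(7, false), (3, false), (6, false), (3, true), (0, true), (1, false), (0, false), (2, false)]
  [(6, true), (7, true), (1, true), (2, true)] [2, 7] (by decide)

def vu6 : Gauss 2 := mk [(7, false), (3, false), (6, false), (0, true), (3, true), (1, false), (0, false), (2, false)]
  [(6, true), (7, true), (1, true), (2, true)] [2, 7] (by decide)

def vu7 : Gauss 2 := mk [(7, false), (3, false), (6, false), (0, true), (3, true), (1, false), (0, false), (2, false)]
  [(6, true), (1, true), (7, true), (2, true)] [2, 7] (by decide)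

def vu8 : Gauss 2 := mk [(7, false), (6, false), (3, false), (0, true), (1, false), (3, true), (0, false), (2, false)]
  [(1, true), (6, true), (7, true), (2, true)] [2, 7] (by decide)

def vu9 : Gauss 2 := mk [(3, false), (0, true), (1, false), (3, true), (0, false), (2, false)]
  [(1, true), (2, true)] [2] (by decide)

def vu10 : Gauss 2 := mk [(3, false), (0, false), (1, false), (3, true), (0, true), (2, false)]
  [(1, true), (2, true)] [0, 2] (by decide)

def vu11 : Gauss 2 := mk [(1, false), (2, false)]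
  [(1, true), (2, true)] [2] (by decide)

def vu12 : Gauss 2 := mk []
  [] [] (by decide)

lemma svu0 : Relation.EqvGen (fun D E => WMove D E ∨ SelfChange D E) vu0 vu1 :=
  .rel _ _ (Or.inr ⟨3, 0, by decide, by decide, by decide, by decide, by decide⟩)

lemma svu1 : Relation.EqvGen (fun D E => WMove D E ∨ SelfChange D E) vu1 vu2 :=
  .symm _ _ (.rel _ _ (Or.inl (Or.inl (Or.inr (Or.inr (Or.inl ⟨6, 7, by decide,
    Or.inl ⟨1, [], [(4, true), (5, true), (1, true), (2, true)], rfl⟩,
    Or.inr ⟨0, [(3, false)], [(4, false), (3, true), (5, false), (0, true), (1, false), (0, false), (2, false)], rfl⟩,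
    by decide, by unfold SameSign; decide⟩))))))

lemma svu2 : Relation.EqvGen (fun D E => WMove D E ∨ SelfChange D E) vu2 vu3 :=
  .rel _ _ (Or.inl (Or.inl (Or.inr (Or.inr (Or.inr ⟨4, 7, 3, -1, 1, -1, by decide, by decide, by decide,
    Or.inr ⟨rfl, ⟨1, [(6, true)], [(5, true), (1, true), (2, true)], rfl⟩⟩,
    Or.inl ⟨rfl, ⟨0, [(3, false), (7, false), (6, false)], [(5, false), (0, true), (1, false), (0, false), (2, false)], rfl⟩⟩,
    Or.inr ⟨rfl, ⟨0, [], [(6, false), (4, false), (3, true), (5, false), (0, true), (1, false), (0, false), (2, false)], rfl⟩⟩,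
    by decide, by decide, by decide, by unfold SameSign; decide⟩)))))

lemma svu3 : Relation.EqvGen (fun D E => WMove D E ∨ SelfChange D E) vu3 vu4 :=
  .rel _ _ (Or.inl (Or.inr ⟨1, [(6, true)], [(5, true), (1, true), (2, true)], 4, 7, rfl, rfl,
    by decide, by unfold SameSign; decide⟩))

lemma svu4 : Relation.EqvGen (fun D E => WMove D E ∨ SelfChange D E) vu4 vu5 :=
  .rel _ _ (Or.inl (Or.inl (Or.inr (Or.inr (Or.inl ⟨4, 5, by decide,
    Or.inl ⟨1, [(6, true), (7, true)], [(1, true), (2, true)], rfl⟩,
    Or.inl ⟨0, [(7, false), (3, false), (6, false), (3, true)], [(0, true), (1, false), (0, false), (2, false)], rfl⟩,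
    by decide, by unfold SameSign; decide⟩)))))

lemma svu5 : Relation.EqvGen (fun D E => WMove D E ∨ SelfChange D E) vu5 vu6 :=
  .rel _ _ (Or.inl (Or.inr ⟨0, [(7, false), (3, false), (6, false)], [(1, false), (0, false), (2, false)], 3, 0, rfl, rfl,
    by decide, by unfold SameSign; decide⟩))

lemma svu6 : Relation.EqvGen (fun D E => WMove D E ∨ SelfChange D E) vu6 vu7 :=
  .rel _ _ (Or.inl (Or.inr ⟨1, [(6, true)], [(2, true)], 7, 1, rfl, rfl,
    by decide, by unfold SameSign; decide⟩))

lemma svu7 : Relation.EqvGen (fun D E => WMove D E ∨ SelfChange D E) vu7 vu8 :=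
  .rel _ _ (Or.inl (Or.inl (Or.inr (Or.inr (Or.inr ⟨1, 6, 3, -1, -1, -1, by decide, by decide, by decide,
    Or.inr ⟨rfl, ⟨1, [], [(7, true), (2, true)], rfl⟩⟩,
    Or.inr ⟨rfl, ⟨0, [(7, false), (3, false), (6, false), (0, true)], [(0, false), (2, false)], rfl⟩⟩,
    Or.inr ⟨rfl, ⟨0, [(7, false)], [(0, true), (3, true), (1, false), (0, false), (2, false)], rfl⟩⟩,
    by decide, by decide, by decide, by unfold SameSign; decide⟩)))))

lemma svu8 : Relation.EqvGen (fun D E => WMove D E ∨ SelfChange D E) vu8 vu9 :=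
  .rel _ _ (Or.inl (Or.inl (Or.inr (Or.inr (Or.inl ⟨6, 7, by decide,
    Or.inl ⟨1, [(1, true)], [(2, true)], rfl⟩,
    Or.inr ⟨0, [], [(3, false), (0, true), (1, false), (3, true), (0, false), (2, false)], rfl⟩,
    by decide, by unfold SameSign; decide⟩)))))

lemma svu9 : Relation.EqvGen (fun D E => WMove D E ∨ SelfChange D E) vu9 vu10 :=
  .rel _ _ (Or.inr ⟨0, 0, by decide, by decide, by decide, by decide, by decide⟩)

lemma svu10 : Relation.EqvGen (fun D E => WMove D E ∨ SelfChange D E) vu10 vu11 :=
  .rel _ _ (Or.inl (Or.inl (Or.inr (Or.inr (Or.inl ⟨0, 3, by decide,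
    Or.inr ⟨0, [(3, false), (0, false), (1, false)], [(2, false)], rfl⟩,
    Or.inr ⟨0, [], [(1, false), (3, true), (0, true), (2, false)], rfl⟩,
    by decide, by unfold SameSign; decide⟩)))))

lemma svu11 : Relation.EqvGen (fun D E => WMove D E ∨ SelfChange D E) vu11 vu12 :=
  .rel _ _ (Or.inl (Or.inl (Or.inr (Or.inr (Or.inl ⟨1, 2, by decide,
    Or.inl ⟨1, [], [], rfl⟩,
    Or.inl ⟨0, [], [], rfl⟩,
    by decide, by unfold SameSign; decide⟩)))))

lemma chainvu : Relation.EqvGen (fun D E => WMove D E ∨ SelfChange D E) vu0 vu12 :=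
  .trans _ _ _ svu0 <|
  .trans _ _ _ svu1 <|
  .trans _ _ _ svu2 <|
  .trans _ _ _ svu3 <|
  .trans _ _ _ svu4 <|
  .trans _ _ _ svu5 <|
  .trans _ _ _ svu6 <|
  .trans _ _ _ svu7 <|
  .trans _ _ _ svu8 <|
  .trans _ _ _ svu9 <|
  .trans _ _ _ svu10 <|
  svu11

end Pool.Agent.H.MP_7df7b8_gt
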