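import Pool.Agent.H.MP_dfcdcf_gt.Chain
import Pool.Agent.H.MP_a283c1_gt.B

namespace Pool.Agent.H.MP_7df7b8_gt

open Pool.Agent.H.MP_dfcdcf_gt
open Pool.Agent.H.MP_a283c1_gt (sw sw_spec sw_sw)

abbrev Pt := ℕ × Bool
abbrev Y := ZMod 2 × ZMod 2

def r : List Y → ZMod 2
  | [] => 0
  | a :: w => a.1 * w.sum.2 + r w

lemma r_append (u v : List Y) : r (u ++ v) = r u + r v + u.sum.1 * v.sum.2 := by
  induction u with
  | nil => simp [r]
  | cons a u ih =>
    simp only [List.cons_append, r, ih, List.sum_append, List.sum_cons, Prod.fst_add, Prod.snd_add]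
    ring

lemma r_change (u v : List Y) {a b a' b' : Y} {k : ZMod 2} (h : a' + b' = a + b)
    (hk : a'.1 * b'.2 = a.1 * b.2 + k) : r (u ++ a' :: b' :: v) = r (u ++ a :: b :: v) + k := by
  have h1 := congrArg Prod.fst h
  have h2 := congrArg Prod.snd h
  simp only [r_append, r, List.sum_cons, Prod.fst_add, Prod.snd_add] at h1 h2 ⊢
  linear_combination hk + v.sum.2 * h1 + u.sum.1 * h2

lemma r_filter (k : Pt → Bool) (δ : Pt → Y) (hδ : ∀ a, k a = false → δ a = 0) (w : List Pt) :
    r ((w.filter k).map δ) = r (w.map δ) := by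
  induction w with
  | nil => rfl
  | cons a w ih =>
    cases h : k a
    · simp [h, ih, hδ a h, r]
    · simp [h, ih, r, Pool.Agent.H.MP_a283c1_gt.sum_filter k δ hδ]

def tot (W : Fin 2 → List Pt) (δ : Pt → Y) : ZMod 2 :=
  r ((W 0).map δ) + r ((W 1).map fun e => (δ e).swap)

lemma tot_congr {W : Fin 2 → List Pt} {δ η : Pt → Y} (h : ∀ i, ∀ e ∈ W i, η e = δ e) :
    tot W η = tot W δ := by
  unfold tot
  rw [List.map_congr_left (h 0), List.map_congr_left fun e he => congrArg Prod.swap (h 1 e he)]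

lemma next_change {D : Gauss 2} {a b : Pt} (h : Next D a b) {δ η : Pt → Y} {k : ZMod 2}
    (h0 : ∀ e, e ≠ a → e ≠ b → η e = δ e) (hs : η a + η b = δ a + δ b)
    (h1 : (η a).1 * (η b).2 = (δ a).1 * (δ b).2 + k)
    (h2 : (η b).1 * (η a).2 = (δ b).1 * (δ a).2 + k) : tot D.word η = tot D.word δ + k := by
  obtain ⟨i, u, v, h⟩ := h
  have hn := D.nodup i
  rw [h, List.nodup_append] at hn
  obtain ⟨-, h3, h4⟩ := hn
  simp only [List.nodup_cons, List.mem_cons, not_or] at h3
  have hu : ∀ e ∈ u, η e = δ e := fun e he => h0 e (h4 e he _ (by simp)) (h4 e he _ (by simp))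
  have hv : ∀ e ∈ v, η e = δ e := fun e he =>
    h0 e (fun h' => h3.1.2 (h' ▸ he)) (fun h' => h3.2.1 (h' ▸ he))
  have ho : ∀ j, j ≠ i → ∀ e ∈ D.word j, η e = δ e := fun j hj e he =>
    h0 e (fun h' => hj (D.disj j i e he (by simp [h, h'])))
      (fun h' => hj (D.disj j i e he (by simp [h, h'])))
  unfold tot
  have hi : i = 0 ∨ i = 1 := by omega
  rcases hi with rfl | rfl
  · rw [List.map_congr_left fun e he => congrArg Prod.swap (ho 1 (by decide) e he), h]
    simp only [List.map_append, List.map_cons, List.map_congr_left hu, List.map_congr_left hv]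
    rw [r_change _ _ hs h1]
    ring
  · rw [List.map_congr_left (ho 0 (by decide)), h]
    simp only [List.map_append, List.map_cons]
    rw [List.map_congr_left fun e he => congrArg Prod.swap (hu e he),
      List.map_congr_left fun e he => congrArg Prod.swap (hv e he),
      r_change (k := k) (a := (δ a).swap) (b := (δ b).swap) _ _ (congrArg Prod.swap hs) (by
        simp only [Prod.fst_swap, Prod.snd_swap]
        linear_combination h2)]
    ring

lemma adj_change {D : Gauss 2} {a b : Pt} (h : Adj D a b) {δ η : Pt → Y} {k : ZMod 2}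
    (h0 : ∀ e, e ≠ a → e ≠ b → η e = δ e) (hs : η a + η b = δ a + δ b)
    (h1 : (η a).1 * (η b).2 = (δ a).1 * (δ b).2 + k)
    (h2 : (η b).1 * (η a).2 = (δ b).1 * (δ a).2 + k) : tot D.word η = tot D.word δ + k := by
  rcases h with h | h
  · exact next_change h h0 hs h1 h2
  · exact next_change h (fun e h3 h4 => h0 e h4 h3) (by rw [add_comm, hs, add_comm]) h2 h1

def dl (D : Gauss 2) (e : Pt) : Y :=
  if e.2 = false ∧ ¬ ∃ i, e ∈ D.word i ∧ bar e ∈ D.word i then (1, 0) else (0, 1)

def I (D : Gauss 2) : ZMod 2 := tot D.word (dl D)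

def A (i j : Fin 2) : Y := if i = j then (0, 1) else (1, 0)

lemma A1 : ∀ i j, (0 : ZMod 2) * (A i j).2 = (A i j).1 * 1 + (A i j).1 := by decide
lemma A2 : ∀ i j, (A i j).1 * 1 = (0 : ZMod 2) * (A i j).2 + (A i j).1 := by decide
lemma A3 : ∀ i j k, (A j k).1 * (A i k).2 = (A i k).1 * (A j k).2 + (A i j).1 := by decide
lemma A4 : ∀ i j k, (A i k).1 * (A j k).2 = (A j k).1 * (A i k).2 + (A i j).1 := by decide
lemma A5 : ∀ i j, 0 + 0 = A i j + A i j := by decide
lemma A6 : ∀ i j, (0 : Y).1 * (0 : Y).2 = (A i j).1 * (A i j).2 + 0 := by decide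

lemma dl_true (D : Gauss 2) (c : ℕ) : dl D (c, true) = (0, 1) := by simp [dl]

lemma dl_false {D : Gauss 2} {c : ℕ} {i j : Fin 2} (h1 : (c, true) ∈ D.word i)
    (h2 : (c, false) ∈ D.word j) : dl D (c, false) = A i j := by
  unfold dl A
  by_cases h : i = j
  · subst h
    rw [if_pos rfl, if_neg]
    exact fun h => h.2 ⟨i, h2, h1⟩
  · rw [if_neg h, if_pos]
    refine ⟨rfl, fun ⟨k, h3, h4⟩ => h ?_⟩
    exact (D.disj _ _ _ h1 h4).trans (D.disj _ _ _ h3 h2)

lemma dl_congr {D E : Gauss 2} {e e' : Pt} (h : e.2 = e'.2)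
    (h1 : ∀ i, e ∈ E.word i ↔ e' ∈ D.word i) (h2 : ∀ i, bar e ∈ E.word i ↔ bar e' ∈ D.word i) :
    dl E e = dl D e' := by
  simp only [dl, h, h1, h2]

lemma I_filter {D E : Gauss 2} (k : Pt → Bool) (hk : ∀ e, k (bar e) = k e)
    (h : ∀ j, E.word j = (D.word j).filter k) :
    I E = tot D.word fun e => if k e then dl D e else 0 := by
  unfold I
  rw [tot_congr (δ := fun e => if k e then dl D e else 0)]
  · unfold tot
    rw [h, h, r_filter k _ fun a ha => by simp [ha], r_filter k _ fun a ha => by simp [ha]]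
  · intro i e he
    have h1 : k e = true := by
      rw [h] at he
      exact (List.mem_filter.1 he).2
    rw [if_pos h1]
    refine dl_congr rfl (fun j => ?_) fun j => ?_ <;> simp [h, hk, h1]

lemma I_map {D E : Gauss 2} (σ : Pt → Pt) (h : ∀ j, E.word j = (D.word j).map σ) :
    I E = tot D.word (dl E ∘ σ) := by
  unfold I tot
  rw [h, h, List.map_map, List.map_map]
  rfl

lemma mem_map_inv {w : List Pt} {σ : Pt → Pt} (h : ∀ e, σ (σ e) = e) (h2 : ∀ e ∈ w, σ e ∈ w)
    (e : Pt) : e ∈ w.map σ ↔ e ∈ w := by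
  constructor
  · intro he
    obtain ⟨a, ha, rfl⟩ := List.mem_map.1 he
    exact h2 a ha
  · exact fun he => List.mem_map.2 ⟨σ e, h2 e he, h e⟩

lemma I_r3 {D E : Gauss 2} (h : R3 D E) : I E = I D := by
  obtain ⟨x, y, z, p, q, r, hxy, hxz, hyz, h1, h2, h3, -, -, h4, -⟩ := h
  change ∀ j, E.word j = (D.word j).map (sw x y z) at h4
  obtain ⟨s1, s2, s3, s4, s5, s6, s7⟩ := sw_spec hxy hxz hyz
  obtain ⟨i, a1, a2⟩ := h1.adj.mem
  obtain ⟨j, b1, b2⟩ := h2.adj.mem
  obtain ⟨k, c1, c2⟩ := h3.adj.mem
  have hm : ∀ l, ∀ e ∈ D.word l, sw x y z e ∈ D.word l := by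
    rintro l ⟨e, b⟩ he
    by_cases u1 : e = x
    · subst u1
      cases b
      · rw [s3, D.disj _ _ _ he b1]; exact b2
      · rw [s1, D.disj _ _ _ he a1]; exact a2
    by_cases u2 : e = y
    · subst u2
      cases b
      · rw [s5, D.disj _ _ _ he c1]; exact c2
      · rw [s2, D.disj _ _ _ he a2]; exact a1
    by_cases u3 : e = z
    · subst u3
      cases b
      · rw [s6, D.disj _ _ _ he c2]; exact c1
      · rw [s4, D.disj _ _ _ he b2]; exact b1
    rwa [s7 (e, b) u1 u2 u3]
  have hd : dl E = dl D := funext fun e => dl_congr rfl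
    (fun l => by rw [h4, mem_map_inv (sw_sw hxy hxz hyz) (hm l)])
    (fun l => by rw [h4, mem_map_inv (sw_sw hxy hxz hyz) (hm l)])
  have d1 := dl_false a1 b1
  have d2 := dl_false a2 c1
  have d3 := dl_false b2 c2
  have hyx := hxy.symm
  have hzx := hxz.symm
  have hzy := hyz.symm
  have e1 := adj_change h2.adj (δ := dl D) (k := (A i j).1)
    (η := fun e => if e = (y, false) ∨ e = (z, false) then dl D e else dl D (sw x y z e))
    (by
      rintro ⟨e, b⟩ u1 u2
      split_ifs with u3
      · rfl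
      · push Not at u3
        by_cases v1 : e = x
        · subst v1
          cases b
          · exact (u1 rfl).elim
          · rw [s1, dl_true, dl_true]
        by_cases v2 : e = y
        · subst v2
          cases b
          · exact (u3.1 rfl).elim
          · rw [s2, dl_true, dl_true]
        by_cases v3 : e = z
        · subst v3
          cases b
          · exact (u3.2 rfl).elim
          · exact (u2 rfl).elim
        rw [s7 (e, b) v1 v2 v3])
    (by simp [hxy, hxz, s3, s4, add_comm])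
    (by
      rw [if_neg (by simp [hxy, hxz]), if_neg (by simp), s3, s4, d1, dl_true]
      exact A1 i j)
    (by
      rw [if_neg (by simp), if_neg (by simp [hxy, hxz]), s3, s4, d1, dl_true]
      exact A2 i j)
  have e2 := adj_change h3.adj (η := dl D ∘ sw x y z) (k := (A i j).1)
    (δ := fun e => if e = (y, false) ∨ e = (z, false) then dl D e else dl D (sw x y z e))
    (fun e u1 u2 => by simp [u1, u2]) (by simp [s5, s6, add_comm])
    (by
      simp only [Function.comp, true_or, or_true, if_true, s5, s6, d2, d3]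
      exact A3 i j k)
    (by
      simp only [Function.comp, true_or, or_true, if_true, s5, s6, d2, d3]
      exact A4 i j k)
  rw [I_map _ h4, hd, e2, e1, add_assoc, CharTwo.add_self_eq_zero, add_zero]
  rfl

lemma I_move {D E : Gauss 2} (h : WMove D E ∨ SelfChange D E) : I E = I D := by
  rcases h with ((⟨f, h1, -⟩ | ⟨c, h1, h2, -⟩ | ⟨c, d, -, h2, h3, h4, -⟩ | h) |
    ⟨i, u, v, c, d, h1, h2, h3, -⟩) | ⟨c, i, h1, h2, h3, -⟩
  · rw [I_map _ h1]
    refine tot_congr fun i e _ => ?_
    have hf : Function.Injective (Prod.map f id : Pt → Pt) := f.injective.prodMap fun _ _ h => h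
    refine dl_congr rfl (fun j => ?_) fun j => ?_
    · rw [h1, List.mem_map_of_injective hf]
    · rw [h1]
      exact List.mem_map_of_injective (a := bar e) hf
  · obtain ⟨i, a1, a2⟩ := h1.mem
    have d1 := dl_false a1 a2
    rw [I_filter _ (fun _ => rfl) h2, adj_change h1 (δ := dl D) (k := 0), add_zero]
    · rfl
    · rintro ⟨e, b⟩ u1 u2
      rw [if_pos]
      cases b <;> simpa using by first | simpa using u1 | simpa using u2
    all_goals simp [d1, dl_true, A]
    decide
  · obtain ⟨i, a1, a2⟩ := h2.mem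
    obtain ⟨j, b1, b2⟩ := h3.mem
    have d1 := dl_false a1 b1
    have d2 := dl_false a2 b2
    have e1 := adj_change h2 (δ := dl D) (k := 0)
      (η := fun e => if e = (c, true) ∨ e = (d, true) then 0 else dl D e)
      (fun e u1 u2 => by simp [u1, u2]) (by simp [dl_true]; decide) (by simp [dl_true])
      (by simp [dl_true])
    rw [I_filter _ (fun _ => rfl) h4, adj_change h3 (k := 0)
      (δ := fun e => if e = (c, true) ∨ e = (d, true) then 0 else dl D e), e1, add_zero, add_zero]
    · rfl
    · rintro ⟨e, b⟩ u1 u2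
      cases b
      · have v1 : e ≠ c := by simpa using u1
        have v2 : e ≠ d := by simpa using u2
        simp [v1, v2]
      · by_cases v1 : e = c <;> by_cases v2 : e = d <;> simp [v1, v2]
    all_goals
      simp only [d1, d2, ne_eq, not_true, false_and, and_false, decide_false, Prod.mk.injEq,
        Bool.false_eq_true, or_self, if_false]
      first | exact A5 i j | exact A6 i j
  · exact I_r3 h
  · have hm : ∀ j e, e ∈ E.word j ↔ e ∈ D.word j := by
      intro j e
      by_cases hj : j = i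
      · subst hj
        simp only [h1, h2, List.mem_append, List.mem_cons]
        tauto
      · rw [h3 j hj]
    have hd : dl E = dl D := funext fun e => dl_congr rfl (fun l => hm l _) fun l => hm l _
    unfold I tot
    rw [hd]
    have hi : i = 0 ∨ i = 1 := by omega
    rcases hi with rfl | rfl
    · rw [h1, h2, h3 1 (by decide)]
      simp only [List.map_append, List.map_cons, dl_true]
    · rw [h1, h2, h3 0 (by decide)]
      simp only [List.map_append, List.map_cons, dl_true]
  · have hm : ∀ l, ∀ e ∈ D.word l, Equiv.swap (c, true) (c, false) e ∈ D.word l := by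
      intro l e he
      rw [Equiv.swap_apply_def]
      split_ifs with u1 u2
      · rw [D.disj _ _ _ he (u1 ▸ h1)]; exact h2
      · rw [D.disj _ _ _ he (u2 ▸ h2)]; exact h1
      · exact he
    have hd : dl E = dl D := funext fun e => dl_congr rfl
      (fun l => by rw [h3, mem_map_inv (Equiv.swap_apply_self _ _) (hm l)])
      (fun l => by rw [h3, mem_map_inv (Equiv.swap_apply_self _ _) (hm l)])
    rw [I_map _ h3, hd]
    refine tot_congr fun j e _ => ?_
    have d1 := dl_false h1 h2
    simp only [Function.comp, Equiv.swap_apply_def]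
    split_ifs with u1 u2
    · simp [u1, d1, dl_true, A]
    · simp [u2, d1, dl_true, A]
    · rfl

lemma I_eqv {D E : Gauss 2} (h : Relation.EqvGen (fun A B => WMove A B ∨ SelfChange A B) D E) :
    I E = I D := by
  induction h with
  | rel D E h => exact I_move h
  | refl => rfl
  | symm _ _ _ ih => exact ih.symm
  | trans _ _ _ _ _ ih ih' => exact ih'.trans ih

lemma I_mono {D : Gauss 2} (h : IsMonotone D) : I D = 0 := by
  have hb : ∀ i, ∀ e ∈ D.word i, ∃ j, j ≠ i ∧ bar e ∈ D.word j := by
    rintro i ⟨c, _ | _⟩ he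
    · obtain ⟨j, hj⟩ := (D.both c).2 ⟨i, he⟩
      exact ⟨j, fun h' => noself h c i (h' ▸ hj) he, hj⟩
    · obtain ⟨j, hj⟩ := (D.both c).1 ⟨i, he⟩
      exact ⟨j, fun h' => noself h c i he (h' ▸ hj), hj⟩
  have bb : ∀ e, bar (bar e) = e := fun e => by simp [bar]
  have h0 : ∀ e ∈ D.word 0, bar e ∈ D.word 1 := fun e he => by
    obtain ⟨j, h1, h2⟩ := hb 0 e he
    obtain rfl : j = 1 := by omega
    exact h2
  have h1 : ∀ e ∈ D.word 1, bar e ∈ D.word 0 := fun e he => by
    obtain ⟨j, h1, h2⟩ := hb 1 e he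
    obtain rfl : j = 0 := by omega
    exact h2
  obtain ⟨f, hf⟩ := h
  have h2 : D.word 1 = (D.word 0).map bar := by
    refine List.Perm.eq_of_pairwise (le := fun a b => f a.1 < f b.1)
      (fun a b _ _ h3 h4 => (lt_asymm h3 h4).elim) (hf 1) (List.pairwise_map.2 (hf 0)) ?_
    refine (List.perm_ext_iff_of_nodup (D.nodup 1)
      ((D.nodup 0).map (Function.LeftInverse.injective bb))).2 fun e => ⟨fun he => ?_, fun he => ?_⟩
    · exact List.mem_map.2 ⟨bar e, h1 e he, bb e⟩
    · obtain ⟨a, ha, rfl⟩ := List.mem_map.1 he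
      exact h0 a ha
  unfold I tot
  rw [h2, List.map_map, List.map_congr_left (f := _ ∘ bar) (g := dl D), CharTwo.add_self_eq_zero]
  rintro ⟨c, _ | _⟩ he
  · rw [dl_false (h0 _ he) he]
    simp only [Function.comp, bar, Bool.not_false, dl_true]
    rfl
  · simp only [Function.comp, bar, Bool.not_true, dl_true]
    rw [dl_false he (h0 _ he)]
    rfl

end Pool.Agent.H.MP_7df7b8_gt
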